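import Pool.Agent.Helper27.VF.Goals

/-!
# Packet VF-DRA: extension of derivations of `BB`
-/

set_option autoImplicit false

namespace Pool.Agent.Helper18.VF

open Pool.Agent.Helper27.VF

universe u

theorem dra (hDer : DerStmt.{u}) (hPth : PthStmt.{u}) (hOra : OraStmt.{u}) (hOrb : OrbStmt.{u})
    (hOrc : OrcStmt.{u}) (hFrd : FrdStmt.{u}) : DraStmt.{u} := by
  classical
  intro A W _ _ G G₀ w p hS k hk htf
  obtain ⟨-, hora2⟩ := hOra A W G G₀ w p hS k hk
  obtain ⟨-, horb2, -, horb4⟩ := hOrb A W G G₀ w p hS k hk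
  have horc := hOrc A W G G₀ w p hS k hk
  obtain ⟨-, hfrd2⟩ := hFrd A W G G₀ w p hS k hk htf
  have hpth := hPth A W G G₀ w p hS k hk
  generalize hB : BB A G p k = B at horb2 horb4 horc ⊢
  intro M _ _ f hf
  choose! dd hdd1 hdd2 using horb2
  -- uniqueness
  have uniq : ∀ g : A, g ∉ B → ∀ d ∈ DD A G p k, Inn p g d.2 → dd g = d := by
    intro g hg d hd hi
    by_contra hne
    exact hora2 _ (hdd1 g hg) _ hd hne g ⟨hdd2 g hg, hi⟩
  have ddmul : ∀ b ∈ B, ∀ g : A, g ∉ B → dd (b * g) = tr b (dd g) := by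
    intro b hb g hg
    refine uniq _ (fun h => hg ?_) _ (horb4 b hb _ (hdd1 g hg)) ?_
    · have := B.mul_mem (B.inv_mem hb) h
      rwa [inv_mul_cancel_left] at this
    · rw [inn_tr_snd, inv_mul_cancel_left]
      exact hdd2 g hg
  let lam : A → A ⊕ (Set W × Set W) := fun g => if g ∈ B then Sum.inl g else Sum.inr (dd g)
  have lam_pos : ∀ g : A, g ∈ B → lam g = Sum.inl g := fun g hg => if_pos hg
  have lam_neg : ∀ g : A, g ∉ B → lam g = Sum.inr (dd g) := fun g hg => if_neg hg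
  have hmem : ∀ b ∈ B, ∀ g : A, b * g ∈ B ↔ g ∈ B := by
    intro b hb g
    constructor
    · intro h
      have := B.mul_mem (B.inv_mem hb) h
      rwa [inv_mul_cancel_left] at this
    · exact fun h => B.mul_mem hb h
  have hmem' : ∀ b ∈ B, ∀ g : A, g * b ∈ B ↔ g ∈ B := by
    intro b hb g
    constructor
    · intro h
      have := B.mul_mem h (B.inv_mem hb)
      rwa [mul_inv_cancel_right] at this
    · exact fun h => B.mul_mem h hb
  refine hDer A B (A ⊕ (Set W × Set W)) lam ?_ ?_ ?_ ?_ M f hf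
  · -- (1)
    intro b hb g g' h
    by_cases hg : g ∈ B
    · by_cases hg' : g' ∈ B
      · rw [lam_pos g hg, lam_pos g' hg'] at h
        rw [Sum.inl.inj h]
      · rw [lam_pos g hg, lam_neg g' hg'] at h
        exact absurd h Sum.inl_ne_inr
    · by_cases hg' : g' ∈ B
      · rw [lam_neg g hg, lam_pos g' hg'] at h
        exact absurd h Sum.inr_ne_inl
      · rw [lam_neg g hg, lam_neg g' hg'] at h
        rw [lam_neg _ (fun h' => hg ((hmem b hb g).1 h')),
          lam_neg _ (fun h' => hg' ((hmem b hb g').1 h')), ddmul b hb g hg, ddmul b hb g' hg',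
          Sum.inr.inj h]
  · -- (2)
    intro b hb g h
    by_cases hg : g ∈ B
    · rw [lam_pos g hg, lam_pos _ ((hmem b hb g).2 hg)] at h
      exact mul_eq_right.1 (Sum.inl.inj h)
    · rw [lam_neg g hg, lam_neg _ (fun h' => hg ((hmem b hb g).1 h')), ddmul b hb g hg] at h
      exact hfrd2 b _ (hdd1 g hg) (Sum.inr.inj h)
  · -- (3)
    intro x y
    set S := {c | c ∈ SS A G p k ∧ y • w ∉ c.2 ∧ x • w ∉ c.1} with hSdef
    have hSfin : S.Finite := hpth (y • w) (x • w)
    have hT : (⋃ e ∈ S, {q : A ⧸ B | ∃ (g : A) (d : Set W × Set W), (g : A ⧸ B) = q ∧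
        d ∈ DD A G p k ∧ tr g d = e}).Finite := by
      refine hSfin.biUnion (fun e _ => Set.Subsingleton.finite ?_)
      rintro q ⟨g, d, rfl, hd, hgd⟩ q' ⟨g', d', rfl, hd', hgd'⟩
      rw [QuotientGroup.eq]
      have h1 : tr (g⁻¹ * g') d' ∈ DD A G p k := by
        rw [← tr_tr, hgd', ← hgd, tr_tr, inv_mul_cancel, tr_one]
        exact hd
      exact horc _ d' hd' h1
    refine ((Set.finite_singleton (x : A ⧸ B)).union ((Set.finite_singleton (y : A ⧸ B)).union
      hT)).subset ?_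
    rintro q ⟨g, rfl, hne⟩
    by_cases hx : g⁻¹ * x ∈ B
    · left
      exact (QuotientGroup.eq.2 hx)
    by_cases hy : g⁻¹ * y ∈ B
    · right; left
      exact (QuotientGroup.eq.2 hy)
    right; right
    rw [lam_neg _ hx, lam_neg _ hy] at hne
    have hd1 := hdd1 _ hx
    have hi1 := hdd2 _ hx
    have hss : dd (g⁻¹ * x) ∈ SS A G p k := hd1.1
    have hni : ¬ Inn p (g⁻¹ * y) (dd (g⁻¹ * x)).2 := by
      intro h
      exact hne (by rw [uniq _ hy _ hd1 h])
    have hess : tr g (dd (g⁻¹ * x)) ∈ SS A G p k := SS.tr hS hss g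
    have hec : IsCut G (tr g (dd (g⁻¹ * x))) := hess.1
    rw [Set.mem_iUnion₂]
    refine ⟨tr g (dd (g⁻¹ * x)), ⟨hess, ?_, ?_⟩, g, dd (g⁻¹ * x), rfl, hd1, rfl⟩
    · intro h
      have h1 := fact1' hS hec h
      rw [inn_tr_snd] at h1
      exact hni h1
    · intro h
      have h1 := fact1 hS hec h
      have h2 : Inn p x (tr g (dd (g⁻¹ * x))).2 := by
        rw [inn_tr_snd]
        exact hi1
      exact (inn_snd hS hec).1 h2 h1
  · -- (4)
    intro b hb g hg
    have hg1 : g⁻¹ ∉ B := fun h => hg (by simpa using B.inv_mem h)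
    have hg2 : g⁻¹ * b ∉ B := fun h => hg1 ((hmem' b hb _).1 h)
    rw [lam_neg _ hg1, lam_neg _ hg2]
    congr 1
    refine uniq _ hg2 _ (hdd1 _ hg1) ?_
    have hss : dd g⁻¹ ∈ SS A G p k := (hdd1 _ hg1).1
    have hb' : ∀ h : A, ∀ c ∈ SS A G p k, (Inn p (h * b) c.1 ↔ Inn p h c.1) := by
      rw [← hB] at hb
      exact hb
    rw [inn_snd hS hss.1, hb' _ _ hss, ← inn_snd hS hss.1]
    exact hdd2 _ hg1

end Pool.Agent.Helper18.VF
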