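import Pool.Agent.Helper27.VF.Goals

/-!
# Packet VF-RNK: the rank drops
-/

set_option autoImplicit false

namespace Pool.Agent.Helper18.VF

open Pool.Agent.Helper27.VF

universe u v

section der

variable {H : Type*} [Group H] {ι : Type*} (b : FreeGroupBasis ι H) {M : Type*} [AddCommGroup M]
  [DistribMulAction H M]

theorem IsDer_one {f : H → M} (hf : IsDer f) : f 1 = 0 := by
  have h := hf 1 1
  rw [mul_one, one_smul] at h
  exact left_eq_add.1 h

theorem IsDer_inv {f : H → M} (hf : IsDer f) (g : H) : f g⁻¹ = -(g⁻¹ • f g) := by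
  have h := hf g⁻¹ g
  rw [inv_mul_cancel, IsDer_one hf] at h
  exact (neg_eq_of_add_eq_zero_left h.symm).symm

/-- Induction over a free group with a basis. -/
theorem basis_induction {P : H → Prop} (h1 : P 1) (hb : ∀ i, P (b i))
    (hi : ∀ g, P g → P g⁻¹) (hm : ∀ g h, P g → P h → P (g * h)) (g : H) : P g := by
  have key : ∀ x : FreeGroup ι, P (b.repr.symm x) := by
    intro x
    induction x using FreeGroup.induction_on with
    | C1 => rw [map_one]; exact h1
    | of i => exact hb i
    | inv_of i _ => rw [map_inv]; exact hi _ (hb i)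
    | mul x y hx hy => rw [map_mul]; exact hm _ _ hx hy
  have := key (b.repr g)
  rwa [MulEquiv.symm_apply_apply] at this

theorem der_ext {f g : H → M} (hf : IsDer f) (hg : IsDer g) (h : ∀ i, f (b i) = g (b i)) :
    f = g := by
  funext x
  induction x using basis_induction b with
  | h1 => rw [IsDer_one hf, IsDer_one hg]
  | hb i => exact h i
  | hi x hx => rw [IsDer_inv hf, IsDer_inv hg, hx]
  | hm x y hx hy => rw [hf, hg, hx, hy]

/-- the affine map -/
def aff (g : H) (m : M) : Equiv.Perm M where
  toFun x := g • x + m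
  invFun y := g⁻¹ • (y - m)
  left_inv x := by simp
  right_inv y := by simp

theorem der_exists (φ : ι → M) : ∃ f : H → M, IsDer f ∧ ∀ i, f (b i) = φ i := by
  let F : H →* Equiv.Perm M := b.lift (fun i => aff (b i) (φ i))
  have hF : ∀ i, F (b i) = aff (b i) (φ i) := by
    intro i
    have h := congrFun (b.lift.symm_apply_apply (fun i => aff (b i) (φ i))) i
    exact h
  have key : ∀ g : H, ∀ x : M, F g x = g • x + F g 0 := by
    intro g
    induction g using basis_induction b with
    | h1 => intro x; rw [map_one]; simp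
    | hb i =>
      intro x
      rw [hF]
      simp [aff]
    | hi g hg =>
      intro x
      rw [map_inv]
      have e : ∀ y : M, (F g)⁻¹ y = g⁻¹ • (y - F g 0) := by
        intro y
        rw [Equiv.Perm.inv_eq_iff_eq, hg]
        simp
      rw [e, e, smul_sub, smul_sub, smul_zero, zero_sub, sub_eq_add_neg]
    | hm g h hg hh =>
      intro x
      rw [map_mul, Equiv.Perm.mul_apply, Equiv.Perm.mul_apply, hh x, hg (h • x + F h 0),
        hg (F h 0), smul_add, mul_smul, add_assoc]
  refine ⟨fun g => F g 0, ?_, ?_⟩
  · intro g h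
    change F (g * h) 0 = F g 0 + g • F h 0
    rw [map_mul, Equiv.Perm.mul_apply, key g (F h 0), add_comm]
  · intro i
    change F (b i) 0 = φ i
    rw [hF]
    simp [aff]

/-- Derivations correspond to functions on the basis. -/
noncomputable def derEquiv : {f : H → M // IsDer f} ≃ (ι → M) :=
  Equiv.ofBijective (fun f i => f.1 (b i)) ⟨fun f g h => Subtype.ext
    (der_ext b f.2 g.2 (fun i => congrFun h i)), fun φ => by
      obtain ⟨f, hf, h⟩ := der_exists b φ
      exact ⟨⟨f, hf⟩, funext h⟩⟩

end der

/-- Restriction of derivations. -/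
def res {A : Type*} [Group A] (B : Subgroup A) {M : Type*} [AddCommGroup M]
    [DistribMulAction A M] (f : {f : A → M // IsDer f}) : {f : B → M // IsDer f} :=
  ⟨fun x => f.1 x, fun x y => f.2 x y⟩

/-- the action on functions on the cosets -/
@[instance_reducible] def cosAct {A : Type u} [Group A] (L : Subgroup A) : DistribMulAction A (A ⧸ L → ZMod 2) where
  smul a v := fun q => v (a⁻¹ • q)
  one_smul v := by
    funext q
    change v ((1 : A)⁻¹ • q) = v q
    rw [inv_one, one_smul]
  mul_smul a a' v := by
    funext q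
    change v ((a * a')⁻¹ • q) = v (a'⁻¹ • a⁻¹ • q)
    rw [mul_inv_rev, mul_smul]
  smul_zero a := rfl
  smul_add a v v' := rfl

/-- the trivial action -/
@[instance_reducible] def trivAct (A : Type u) [Group A] (M : Type v) [AddCommGroup M] : DistribMulAction A M where
  smul _ v := v
  one_smul _ := rfl
  mul_smul _ _ _ := rfl
  smul_zero _ := rfl
  smul_add _ _ _ := rfl

theorem rnk (hHal : HalStmt) : RnkStmt.{u} := by
  classical
  intro m A _ ⟨e⟩ B hB hext
  let bA : FreeGroupBasis (Fin m) A := (FreeGroupBasis.ofFreeGroup (Fin m)).map e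
  have : IsFreeGroup A := bA.isFreeGroup
  let ι := IsFreeGroup.Generators B
  let bB : FreeGroupBasis ι B := IsFreeGroup.basis B
  -- the restriction is surjective
  have hsurj : ∀ (M : Type u) [AddCommGroup M] [DistribMulAction A M] [Finite M],
      Function.Surjective (res (M := M) B) := by
    intro M _ _ _ ⟨f, hf⟩
    obtain ⟨δ, hδ, h⟩ := hext M f (fun x y => hf x y)
    exact ⟨⟨δ, hδ⟩, Subtype.ext (funext h)⟩
  -- the basis of `B` is finite
  have hfin : Finite ι ∧ Nat.card ι ≤ m := by
    letI := trivAct A (ULift.{u} (ZMod 2))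
    let R : (Fin m → ULift.{u} (ZMod 2)) → (ι → ULift.{u} (ZMod 2)) :=
      fun φ => derEquiv bB (res B ((derEquiv bA).symm φ))
    have hR : Function.Surjective R :=
      (derEquiv bB).surjective.comp ((hsurj _).comp (derEquiv bA).symm.surjective)
    have : Finite (ι → ULift.{u} (ZMod 2)) := Finite.of_surjective R hR
    have hι : Finite ι := by
      refine Finite.of_injective (β := ι → ULift.{u} (ZMod 2)) (fun i => Pi.single i ⟨1⟩) ?_
      intro i j hij
      by_contra hne
      have h1 := congrFun hij i
      simp only [Pi.single_eq_same, Pi.single_eq_of_ne hne] at h1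
      have h2 := congrArg ULift.down h1
      revert h2
      decide
    refine ⟨hι, ?_⟩
    have h1 := Nat.card_le_card_of_surjective R hR
    rw [Nat.card_fun, Nat.card_fun, Nat.card_ulift, Nat.card_zmod, Nat.card_fin] at h1
    exact (Nat.pow_le_pow_iff_right (by norm_num)).1 h1
  obtain ⟨hι, hcard⟩ := hfin
  have hlt : Nat.card ι < m := by
    refine lt_of_le_of_ne hcard ?_
    intro heq
    -- the subgroup `L`
    have hBfg : B.FG := by
      rw [← Group.fg_iff_subgroup_fg]
      have : Fintype ι := Fintype.ofFinite ι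
      refine Group.fg_iff.2 ⟨Set.range bB, ?_, Set.finite_range _⟩
      rw [eq_top_iff]
      intro g hg0
      clear hg0
      induction g using basis_induction bB with
      | h1 => exact one_mem _
      | hb i => exact Subgroup.subset_closure ⟨i, rfl⟩
      | hi g hg => exact inv_mem hg
      | hm g h hg hh => exact mul_mem hg hh
    obtain ⟨L', hBL', hL', hfi⟩ := hHal m (B.map e.symm.toMonoidHom)
      (by
        obtain ⟨S, hS, hSf⟩ := (Subgroup.fg_iff B).1 hBfg
        refine (Subgroup.fg_iff _).2 ⟨e.symm '' S, ?_, hSf.image _⟩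
        rw [← hS, MonoidHom.map_closure]
        rfl)
      (by
        intro h
        apply hB
        rw [eq_top_iff]
        intro a _
        have h1 : e.symm a ∈ B.map e.symm.toMonoidHom := by rw [h]; exact Subgroup.mem_top _
        obtain ⟨x, hx, hxa⟩ := h1
        have h2 : x = a := e.symm.injective hxa
        rw [← h2]; exact hx)
    let L : Subgroup A := L'.comap e.symm.toMonoidHom
    have hBL : ∀ x ∈ B, x ∈ L := fun x hx => hBL' ⟨x, hx, rfl⟩
    have hLtop : ∃ g : A, g ∉ L := by
      by_contra hcon
      push Not at hcon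
      apply hL'
      rw [eq_top_iff]
      intro x _
      have h1 : e.symm (e x) ∈ L' := hcon (e x)
      rwa [MulEquiv.symm_apply_apply] at h1
    have hLfi : Finite (A ⧸ L) := by
      have h1 : L.index = L'.index :=
        Subgroup.index_comap_of_surjective L' e.symm.surjective
      have h2 : L.index ≠ 0 := by rw [h1]; exact hfi.index_ne_zero
      have h3 : L.FiniteIndex := ⟨h2⟩
      exact Subgroup.finite_quotient_of_finiteIndex
    let _ := cosAct L
    have hbij : Function.Bijective (res (M := (A ⧸ L → ZMod 2)) B) := by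
      have : Finite (A ⧸ L → ZMod 2) := inferInstance
      have : Finite {f : A → (A ⧸ L → ZMod 2) // IsDer f} :=
        Finite.of_equiv _ (derEquiv bA).symm
      refine (hsurj _).bijective_of_nat_card_le ?_
      rw [Nat.card_congr (derEquiv (M := (A ⧸ L → ZMod 2)) bA),
        Nat.card_congr (derEquiv (M := (A ⧸ L → ZMod 2)) bB),
        Nat.card_fun (α := Fin m), Nat.card_fun (α := ι), heq, Nat.card_fin]
    -- the derivation
    let v : A ⧸ L → ZMod 2 := fun q => if q = ((1 : A) : A ⧸ L) then 1 else 0
    have hδ : IsDer (fun g : A => g • v - v) := by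
      intro g h
      change (g * h) • v - v = (g • v - v) + g • (h • v - v)
      rw [mul_smul, smul_sub]
      abel
    have hzero : IsDer (fun _ : A => (0 : A ⧸ L → ZMod 2)) := by
      intro g h
      change (0 : A ⧸ L → ZMod 2) = 0 + g • 0
      rw [smul_zero, add_zero]
    have hres : res B ⟨_, hδ⟩ = res B ⟨_, hzero⟩ := by
      refine Subtype.ext (funext fun x => ?_)
      change (x : A) • v - v = 0
      rw [sub_eq_zero]
      funext q
      change v ((x : A)⁻¹ • q) = v q
      have h1 : ((x : A)⁻¹ • q = ((1 : A) : A ⧸ L)) ↔ q = ((1 : A) : A ⧸ L) := by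
        rw [inv_smul_eq_iff]
        have h2 : (x : A) • ((1 : A) : A ⧸ L) = ((1 : A) : A ⧸ L) := by
          change (((x : A) * 1 : A) : A ⧸ L) = ((1 : A) : A ⧸ L)
          rw [mul_one, QuotientGroup.eq, mul_one]
          exact inv_mem (hBL _ x.2)
        rw [h2]
      simp only [v, h1]
    have h3 := congrArg Subtype.val (hbij.1 hres)
    obtain ⟨g, hg⟩ := hLtop
    have h4 : g • v - v = 0 := congrFun h3 g
    have h5 := congrFun h4 (g : A ⧸ L)
    have h6 : v (g⁻¹ • (g : A ⧸ L)) - v (g : A ⧸ L) = 0 := h5
    have h7 : g⁻¹ • (g : A ⧸ L) = ((1 : A) : A ⧸ L) := by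
      change ((g⁻¹ * g : A) : A ⧸ L) = _
      rw [inv_mul_cancel]
    have h8 : ¬ ((g : A ⧸ L) = ((1 : A) : A ⧸ L)) := by
      rw [QuotientGroup.eq, mul_one]
      exact fun h => hg (by simpa using inv_mem h)
    rw [h7] at h6
    simp only [v, if_true, if_neg h8, sub_zero] at h6
    revert h6
    decide
  refine ⟨Nat.card ι, hlt, ⟨?_⟩⟩
  have e1 : Fin (Nat.card ι) ≃ ι := (Finite.equivFin ι).symm
  exact (FreeGroup.freeGroupCongr e1).trans bB.repr.symm

end Pool.Agent.Helper18.VF
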